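import Pool.Agent.Helper77.SD.St

/-!
# Module CAC of project SD: local Caccioppoli inequality
-/

set_option autoImplicit false

namespace Pool.Agent.Helper79.SD

open Pool.Agent.Helper77.SD
open MeasureTheory Metric Set
open scoped Gradient RealInnerProductSpace ENNReal

variable {d : ℕ}

/-- a function dominated by an `L²(ball)` function and vanishing off the ball -/
lemma cac_ball {F F' : Type*} [NormedAddCommGroup F] [NormedAddCommGroup F'] {f : E d → F} {g : E d → F'}
    {R K : ℝ} (hf : MemLp f 2 (volume.restrict (ball (0 : E d) R)))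
    (hg : AEStronglyMeasurable g (volume.restrict (ball (0 : E d) R)))
    (h0 : ∀ x, x ∉ ball (0 : E d) R → g x = 0) (h : ∀ x, ‖g x‖ ≤ K * ‖f x‖) :
    L2 g ∧ nrm g ^ 2 ≤ K ^ 2 * ∫ x in ball (0 : E d) R, ‖f x‖ ^ 2 := by
  have e1 : g = (ball (0 : E d) R).indicator g := by
    ext x
    by_cases hx : x ∈ ball (0 : E d) R
    · rw [indicator_of_mem hx]
    · rw [indicator_of_notMem hx, h0 x hx]
  have h1 : MemLp g 2 (volume.restrict (ball (0 : E d) R)) :=
    hf.of_le_mul hg (Filter.Eventually.of_forall h)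
  have h2 : L2 g := by
    rw [e1]
    exact (memLp_indicator_iff_restrict measurableSet_ball).2 h1
  refine ⟨h2, ?_⟩
  rw [nrm_sq, ← integral_const_mul]
  rw [← setIntegral_eq_integral_of_forall_compl_eq_zero (s := ball (0 : E d) R)
    (fun x hx => by rw [h0 x hx]; simp)]
  refine integral_mono_of_nonneg (Filter.Eventually.of_forall fun x => sq_nonneg _) ?_
    (Filter.Eventually.of_forall fun x => ?_)
  · exact ((memLp_two_iff_integrable_sq_norm hf.1).1 hf).const_mul _
  · have := pow_le_pow_left₀ (norm_nonneg _) (h x) 2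
    simpa [mul_pow] using this

/-- continuous functions are in `L²` of a ball -/
lemma cac_cont {F : Type*} [NormedAddCommGroup F] [SecondCountableTopologyEither (E d) F] {f : E d → F}
    (hf : Continuous f) (R : ℝ) : MemLp f 2 (volume.restrict (ball (0 : E d) R)) := by
  obtain ⟨C, hC⟩ := (isCompact_closedBall (0 : E d) R).exists_bound_of_continuousOn hf.continuousOn
  have : IsFiniteMeasure (volume.restrict (ball (0 : E d) R)) :=
    ⟨by rw [Measure.restrict_apply_univ]; exact measure_ball_lt_top⟩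
  refine MemLp.of_bound hf.aestronglyMeasurable C ?_
  filter_upwards [ae_restrict_mem measurableSet_ball] with x hx
  exact hC x (ball_subset_closedBall hx)

/-- gradient of the test function -/
lemma cac_grad {χ v : E d → ℝ} (hχ : ContDiff ℝ 1 χ) (hv : ContDiff ℝ 1 v) (x : E d) :
    ∇ (fun y => χ y * (χ y * v y)) x = (χ x ^ 2) • ∇ v x + (2 * (χ x * v x)) • ∇ χ x := by
  have h1 : DifferentiableAt ℝ χ x := (hχ.differentiable (by norm_num)) x
  have h2 : DifferentiableAt ℝ v x := (hv.differentiable (by norm_num)) x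
  have h3 : fderiv ℝ (fun y => χ y * (χ y * v y)) x =
      (χ x ^ 2) • fderiv ℝ v x + (2 * (χ x * v x)) • fderiv ℝ χ x := by
    rw [fderiv_fun_mul h1 (h1.fun_mul h2), fderiv_fun_mul h1 h2]
    module
  unfold gradient
  rw [h3, map_add, map_smulₛₗ, map_smulₛₗ]
  simp

/-- `x ↦ A x (f x)` is in `L²` -/
lemma cac_A {A : E d → E d →L[ℝ] E d} {Λ' : ℝ} (hA : Measurable A) (hb : ∀ x, ‖A x‖ ≤ Λ') {f : E d → E d}
    (hf : L2 f) : L2 (fun x => A x (f x)) := by
  refine l2_of_le (K := Λ') hf ?_ (fun x => ?_)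
  · exact isBoundedBilinearMap_apply.continuous.comp_aestronglyMeasurable
      (hA.aestronglyMeasurable.prodMk hf.1)
  · exact ((A x).le_opNorm _).trans (mul_le_mul_of_nonneg_right (hb x) (norm_nonneg _))

lemma cac_V {V : E d → ℝ} {M : ℝ} (hV : Measurable V) (hb : ∀ x, |V x| ≤ M) {f : E d → ℝ}
    (hf : L2 f) : L2 (fun x => V x * f x) := by
  refine l2_of_le (K := M) hf ?_ (fun x => ?_)
  · exact hV.aestronglyMeasurable.mul hf.1
  · rw [norm_mul]
    exact mul_le_mul_of_nonneg_right (hb x) (norm_nonneg _)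

theorem hCAC : StCAC := by
  intro d A V u G a Λ' M ha hA hV hell hAb hVb hS χ hχ hχc
  -- a ball containing the support
  obtain ⟨R, hR⟩ := hχc.isCompact.isBounded.subset_ball (0 : E d)
  have hs : ∀ x, x ∉ ball (0 : E d) R → χ x = 0 := fun x hx => by
    by_contra h
    exact hx (hR (subset_tsupport _ h))
  have hsG : ∀ x, x ∉ ball (0 : E d) R → ∇ χ x = 0 := fun x hx => by
    have h1 : fderiv ℝ χ x = 0 := by
      by_contra h
      exact hx (hR (support_fderiv_subset ℝ h))
    unfold gradient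
    rw [h1, map_zero]
  -- bounds
  obtain ⟨K₁, hK₁⟩ := hχc.exists_bound_of_continuous hχ.continuous
  obtain ⟨K₂, hK₂⟩ := (compact_grad hχc).exists_bound_of_continuous (continuous_grad hχ)
  obtain ⟨K, hK0, hK1, hK2⟩ : ∃ K : ℝ, 0 ≤ K ∧ (∀ x, ‖χ x‖ ≤ K) ∧ ∀ x, ‖∇ χ x‖ ≤ K :=
    ⟨max K₁ K₂, (norm_nonneg _).trans ((hK₁ 0).trans (le_max_left _ _)),
      fun x => (hK₁ x).trans (le_max_left _ _), fun x => (hK₂ x).trans (le_max_right _ _)⟩
  have mχ : ∀ μ : Measure (E d), AEStronglyMeasurable χ μ := fun μ => hχ.continuous.aestronglyMeasurable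
  have mχ' : ∀ μ : Measure (E d), AEStronglyMeasurable (∇ χ) μ :=
    fun μ => (continuous_grad hχ).aestronglyMeasurable
  have hu := hS.loc R
  have hG := hS.locG R
  -- the square integrable functions
  have l1 : L2 (fun x => χ x • G x) := (cac_ball (g := fun x => χ x • G x) hG ((mχ _).smul hG.1)
    (fun x hx => by rw [hs x hx, zero_smul])
    (fun x => by rw [norm_smul]; exact mul_le_mul_of_nonneg_right (hK1 x) (norm_nonneg _))).1
  have l2 : L2 (fun x => χ x * u x) := (cac_ball (g := fun x => χ x * u x) hu ((mχ _).mul hu.1)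
    (fun x hx => by rw [hs x hx, zero_mul])
    (fun x => by rw [norm_mul]; exact mul_le_mul_of_nonneg_right (hK1 x) (norm_nonneg _))).1
  have l3 : L2 (fun x => u x • ∇ χ x) := (cac_ball (g := fun x => u x • ∇ χ x) hu (hu.1.smul (mχ' _))
    (fun x hx => by rw [hsG x hx, smul_zero])
    (fun x => by rw [norm_smul, mul_comm]; exact mul_le_mul_of_nonneg_right (hK2 x) (norm_nonneg _))).1
  have lA : L2 (fun x => A x (χ x • G x)) := cac_A hA hAb l1
  have lV : L2 (fun x => V x * (χ x * u x)) := cac_V hV hVb l2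
  -- the identity
  have key : (∫ x, ⟪A x (χ x • G x), χ x • G x⟫) + 2 * (∫ x, ⟪A x (χ x • G x), u x • ∇ χ x⟫) -
      ∫ x, (V x * (χ x * u x)) * (χ x * u x) = 0 := by
    set Z := (∫ x, ⟪A x (χ x • G x), χ x • G x⟫) + 2 * (∫ x, ⟪A x (χ x • G x), u x • ∇ χ x⟫) -
      ∫ x, (V x * (χ x * u x)) * (χ x * u x) with hZ
    set N₁ := nrm (fun x => A x (χ x • G x)) with hN₁
    set N₂ := nrm (fun x => V x * (χ x * u x)) with hN₂
    have hN₁0 : 0 ≤ N₁ := nrm_nonneg _
    have hN₂0 : 0 ≤ N₂ := nrm_nonneg _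
    have main : ∀ ε : ℝ, 0 < ε → |Z| ≤ (3 * N₁ + N₂) * K * ε := by
      intro ε hε
      obtain ⟨v, hv, hv1, hv2⟩ := hS.app R (ε ^ 2) (by positivity)
      have cv := cac_cont hv.continuous R
      have cg := cac_cont (continuous_grad hv) R
      have m4 : MemLp (fun x => ∇ v x - G x) 2 (volume.restrict (ball (0 : E d) R)) := cg.sub hG
      have m5 : MemLp (fun x => v x - u x) 2 (volume.restrict (ball (0 : E d) R)) := cv.sub hu
      have l4 := cac_ball (g := fun x => χ x • (∇ v x - G x)) m4 ((mχ _).smul m4.1)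
        (fun x hx => by rw [hs x hx, zero_smul])
        (fun x => by rw [norm_smul]; exact mul_le_mul_of_nonneg_right (hK1 x) (norm_nonneg _))
      have l5 := cac_ball (g := fun x => (v x - u x) • ∇ χ x) m5 (m5.1.smul (mχ' _))
        (fun x hx => by rw [hsG x hx, smul_zero])
        (fun x => by rw [norm_smul, mul_comm]; exact mul_le_mul_of_nonneg_right (hK2 x) (norm_nonneg _))
      have l6 := cac_ball (g := fun x => χ x * (v x - u x)) m5 ((mχ _).mul m5.1)
        (fun x hx => by rw [hs x hx, zero_mul])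
        (fun x => by rw [norm_mul]; exact mul_le_mul_of_nonneg_right (hK1 x) (norm_nonneg _))
      have hv1' : ∫ x in ball (0 : E d) R, ‖v x - u x‖ ^ 2 < ε ^ 2 := by
        simpa [Real.norm_eq_abs, sq_abs] using hv1
      have n4 : nrm (fun x => χ x • (∇ v x - G x)) ≤ K * ε := by
        refine le_of_sq_le_sq (l4.2.trans ?_) (by positivity)
        rw [mul_pow]
        exact mul_le_mul_of_nonneg_left hv2.le (by positivity)
      have n5 : nrm (fun x => (v x - u x) • ∇ χ x) ≤ K * ε := by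
        refine le_of_sq_le_sq (l5.2.trans ?_) (by positivity)
        rw [mul_pow]
        exact mul_le_mul_of_nonneg_left hv1'.le (by positivity)
      have n6 : nrm (fun x => χ x * (v x - u x)) ≤ K * ε := by
        refine le_of_sq_le_sq (l6.2.trans ?_) (by positivity)
        rw [mul_pow]
        exact mul_le_mul_of_nonneg_left hv1'.le (by positivity)
      have heq := hS.eq (fun y => χ y * (χ y * v y)) (hχ.mul (hχ.mul hv)) hχc.mul_right
      have p1 : ∀ x, ⟪A x (G x), ∇ (fun y => χ y * (χ y * v y)) x⟫ =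
          (⟪A x (χ x • G x), χ x • G x⟫ + 2 * ⟪A x (χ x • G x), u x • ∇ χ x⟫) +
          (⟪A x (χ x • G x), χ x • (∇ v x - G x)⟫ + 2 * ⟪A x (χ x • G x), (v x - u x) • ∇ χ x⟫) := by
        intro x
        rw [cac_grad hχ hv]
        simp only [map_smul, inner_smul_left, inner_smul_right, inner_add_right, inner_sub_right,
          conj_trivial]
        ring
      have p2 : ∀ x, V x * u x * (χ x * (χ x * v x)) =
          (V x * (χ x * u x)) * (χ x * u x) + (V x * (χ x * u x)) * (χ x * (v x - u x)) := by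
        intro x; ring
      simp only [p1, p2] at heq
      have i1 := integrable_inner lA l1
      have i2 := integrable_inner lA l3
      have i3 := integrable_inner lA l4.1
      have i4 := integrable_inner lA l5.1
      have i5 := integrable_mul lV l2
      have i6 := integrable_mul lV l6.1
      have j1 : Integrable (fun x => ⟪A x (χ x • G x), χ x • G x⟫ + 2 * ⟪A x (χ x • G x), u x • ∇ χ x⟫) :=
        i1.add (i2.const_mul 2)
      have j2 : Integrable (fun x => ⟪A x (χ x • G x), χ x • (∇ v x - G x)⟫ +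
          2 * ⟪A x (χ x • G x), (v x - u x) • ∇ χ x⟫) :=
        i3.add (i4.const_mul 2)
      rw [integral_add j1 j2, integral_add i1 (i2.const_mul 2),
        integral_add i3 (i4.const_mul 2), integral_add i5 i6, integral_const_mul, integral_const_mul] at heq
      have b1 := abs_integral_inner_le lA l4.1
      have b2 := abs_integral_inner_le lA l5.1
      have b3 := abs_integral_mul_le lV l6.1
      have b1' := b1.trans (mul_le_mul_of_nonneg_left n4 hN₁0)
      have b2' := b2.trans (mul_le_mul_of_nonneg_left n5 hN₁0)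
      have b3' := b3.trans (mul_le_mul_of_nonneg_left n6 hN₂0)
      rw [abs_le] at b1' b2' b3' ⊢
      constructor <;> nlinarith [b1'.1, b1'.2, b2'.1, b2'.2, b3'.1, b3'.2]
    by_contra hne
    have hpos : 0 < |Z| := abs_pos.2 hne
    have hC : 0 ≤ (3 * N₁ + N₂) * K := by positivity
    have h1 := main (|Z| / (2 * ((3 * N₁ + N₂) * K + 1))) (by positivity)
    have h2 : (3 * N₁ + N₂) * K * (|Z| / (2 * ((3 * N₁ + N₂) * K + 1))) ≤ |Z| / 2 := by
      rw [← mul_div_assoc, div_le_div_iff₀ (by positivity) (by norm_num)]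
      nlinarith
    linarith
  -- conclusion
  have i1 := integrable_inner lA l1
  have i2 := integrable_inner lA l3
  have i5 := integrable_mul lV l2
  have q1 := integrable_sq l1
  have q2 := integrable_sq l2
  have q3 := integrable_sq l3
  have r1 : a * ∫ x, ‖χ x • G x‖ ^ 2 ≤ ∫ x, ⟪A x (χ x • G x), χ x • G x⟫ := by
    rw [← integral_const_mul]
    exact integral_mono (q1.const_mul _) i1 (fun x => hell x _)
  have r2 : -(2 * ∫ x, ⟪A x (χ x • G x), u x • ∇ χ x⟫) ≤
      a / 2 * (∫ x, ‖χ x • G x‖ ^ 2) + 2 * Λ' ^ 2 / a * ∫ x, ‖u x • ∇ χ x‖ ^ 2 := by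
    rw [← integral_const_mul, ← integral_const_mul, ← integral_const_mul, ← integral_neg,
      ← integral_add (q1.const_mul _) (q3.const_mul _)]
    refine integral_mono (i2.const_mul 2).neg ((q1.const_mul _).add (q3.const_mul _)) (fun x => ?_)
    have s1 := abs_real_inner_le_norm (A x (χ x • G x)) (u x • ∇ χ x)
    have s2 : ‖A x (χ x • G x)‖ ≤ Λ' * ‖χ x • G x‖ :=
      ((A x).le_opNorm _).trans (mul_le_mul_of_nonneg_right (hAb x) (norm_nonneg _))
    have s3 := s1.trans (mul_le_mul_of_nonneg_right s2 (norm_nonneg _))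
    have s4 := (abs_le.1 s3).1
    simp only
    have s5 : 2 * (Λ' * ‖χ x • G x‖ * ‖u x • ∇ χ x‖) ≤
        a / 2 * ‖χ x • G x‖ ^ 2 + 2 * Λ' ^ 2 / a * ‖u x • ∇ χ x‖ ^ 2 := by
      have e : a / 2 * ‖χ x • G x‖ ^ 2 + 2 * Λ' ^ 2 / a * ‖u x • ∇ χ x‖ ^ 2 -
          2 * (Λ' * ‖χ x • G x‖ * ‖u x • ∇ χ x‖) =
          (a * ‖χ x • G x‖ - 2 * Λ' * ‖u x • ∇ χ x‖) ^ 2 / (2 * a) := by
        field_simp
        ring
      have : 0 ≤ (a * ‖χ x • G x‖ - 2 * Λ' * ‖u x • ∇ χ x‖) ^ 2 / (2 * a) := by positivity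
      linarith
    linarith
  have r3 : ∫ x, (V x * (χ x * u x)) * (χ x * u x) ≤ M * ∫ x, ‖χ x * u x‖ ^ 2 := by
    rw [← integral_const_mul]
    refine integral_mono i5 (q2.const_mul _) (fun x => ?_)
    simp only
    have := (abs_le.1 (hVb x)).2
    rw [Real.norm_eq_abs, sq_abs]
    nlinarith [sq_nonneg (χ x * u x)]
  have e1 : ∫ x, χ x ^ 2 * ‖G x‖ ^ 2 = ∫ x, ‖χ x • G x‖ ^ 2 := by
    refine integral_congr_ae (Filter.Eventually.of_forall fun x => ?_)
    simp only
    rw [norm_smul, mul_pow, Real.norm_eq_abs, sq_abs]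
  have e2 : ∫ x, (2 * Λ' ^ 2 / a * ‖∇ χ x‖ ^ 2 + M * χ x ^ 2) * u x ^ 2 =
      2 * Λ' ^ 2 / a * (∫ x, ‖u x • ∇ χ x‖ ^ 2) + M * ∫ x, ‖χ x * u x‖ ^ 2 := by
    rw [← integral_const_mul, ← integral_const_mul, ← integral_add (q3.const_mul _) (q2.const_mul _)]
    refine integral_congr_ae (Filter.Eventually.of_forall fun x => ?_)
    simp only
    rw [norm_smul, norm_mul, mul_pow, mul_pow, Real.norm_eq_abs, Real.norm_eq_abs, sq_abs, sq_abs]
    ring
  rw [e1, e2]
  linarith

end Pool.Agent.Helper79.SD
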